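import Mathlib

set_option autoImplicit false

open scoped InnerProductSpace

namespace Pool.Agent.H11R2.MTI

variable {E : Type*} [NormedAddCommGroup E] [InnerProductSpace ℂ E] [FiniteDimensional ℂ E]

lemma re_conj_mul (z : ℂ) : ((starRingEnd ℂ) z * z).re = ‖z‖ ^ 2 := by
  rw [← Complex.normSq_eq_conj_mul_self, Complex.ofReal_re, Complex.normSq_eq_norm_sq]

/-- Spectral subspace for a symmetric operator. -/
lemma spectral_top (T : E →ₗ[ℂ] E) (hT : T.IsSymmetric)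
    (hpos : ∀ v, 0 ≤ (⟪T v, v⟫_ℂ).re) (η : ℝ) :
    ∃ H : Submodule ℂ E, (∀ v ∈ H, (⟪T v, v⟫_ℂ).re ≤ η * ‖v‖ ^ 2) ∧
      ∀ φ : E, ∃ w ∈ H, η * ‖φ - w‖ ^ 2 ≤ (⟪T φ, φ⟫_ℂ).re := by
  classical
  set b := hT.eigenvectorBasis rfl with hb
  set lam := hT.eigenvalues rfl with hlam
  have hTb : ∀ i, T (b i) = (lam i : ℂ) • b i := fun i => hT.apply_eigenvectorBasis rfl i
  -- quadratic form in coordinates
  have hq : ∀ v : E, (⟪T v, v⟫_ℂ).re = ∑ i, lam i * ‖⟪b i, v⟫_ℂ‖ ^ 2 := by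
    intro v
    have h1 : ⟪T v, v⟫_ℂ = ∑ i, ⟪T v, b i⟫_ℂ * ⟪b i, v⟫_ℂ := (b.sum_inner_mul_inner (T v) v).symm
    rw [h1, Complex.re_sum]
    refine Finset.sum_congr rfl fun i _ => ?_
    have h2 : ⟪T v, b i⟫_ℂ = (lam i : ℂ) * ⟪v, b i⟫_ℂ := by
      rw [hT v (b i), hTb i, inner_smul_right]
    rw [h2, mul_assoc, Complex.re_ofReal_mul, ← inner_conj_symm v (b i), re_conj_mul]
  have hn : ∀ v : E, ‖v‖ ^ 2 = ∑ i, ‖⟪b i, v⟫_ℂ‖ ^ 2 := fun v => (b.sum_sq_norm_inner_right v).symm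
  have hlam0 : ∀ i, 0 ≤ lam i := by
    intro i
    have h := hpos (b i)
    rw [hTb i, inner_smul_left, inner_self_eq_norm_sq_to_K, b.norm_eq_one] at h
    simpa using h
  refine ⟨Submodule.span ℂ (b '' {i | lam i ≤ η}), ?_, ?_⟩
  · intro v hv
    rw [hq, hn, Finset.mul_sum]
    refine Finset.sum_le_sum fun i _ => ?_
    by_cases hi : lam i ≤ η
    · exact mul_le_mul_of_nonneg_right hi (sq_nonneg _)
    · have h0 : ⟪b i, v⟫_ℂ = 0 := by
        refine Submodule.span_induction (p := fun x _ => ⟪b i, x⟫_ℂ = 0) ?_ ?_ ?_ ?_ hv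
        · rintro x ⟨j, hj, rfl⟩
          have hij : i ≠ j := fun h => hi (h ▸ hj)
          rw [b.inner_eq_ite, if_neg hij]
        · simp
        · intro x y _ _ hx hy
          rw [inner_add_right, hx, hy, add_zero]
        · intro a x _ hx
          rw [inner_smul_right, hx, mul_zero]
      rw [h0]; simp
  · intro φ
    refine ⟨∑ i ∈ Finset.univ.filter (fun i => lam i ≤ η), ⟪b i, φ⟫_ℂ • b i, ?_, ?_⟩
    · refine Submodule.sum_mem _ fun i hi => Submodule.smul_mem _ _ (Submodule.subset_span ⟨i, ?_, rfl⟩)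
      exact (Finset.mem_filter.1 hi).2
    · rw [hq, hn, Finset.mul_sum]
      refine Finset.sum_le_sum fun j _ => ?_
      rw [inner_sub_right, inner_sum]
      have : ∑ i ∈ Finset.univ.filter (fun i => lam i ≤ η), ⟪b j, ⟪b i, φ⟫_ℂ • b i⟫_ℂ =
          if lam j ≤ η then ⟪b j, φ⟫_ℂ else 0 := by
        simp_rw [inner_smul_right, b.inner_eq_ite]
        by_cases hj : lam j ≤ η
        · rw [if_pos hj, Finset.sum_eq_single j]
          · simp
          · intro i _ hij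
            rw [if_neg (Ne.symm hij), mul_zero]
          · intro h
            exact absurd (Finset.mem_filter.2 ⟨Finset.mem_univ j, hj⟩ : j ∈ Finset.univ.filter (fun i => lam i ≤ η)) h
        · rw [if_neg hj]
          refine Finset.sum_eq_zero fun i hi => ?_
          have hij : j ≠ i := fun h => hj (h ▸ (Finset.mem_filter.1 hi).2)
          rw [if_neg hij, mul_zero]
      rw [this]
      by_cases hj : lam j ≤ η
      · rw [if_pos hj, sub_self, norm_zero]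
        have := mul_nonneg (hlam0 j) (sq_nonneg ‖⟪b j, φ⟫_ℂ‖)
        simpa using this
      · rw [if_neg hj, sub_zero]
        exact mul_le_mul_of_nonneg_right (not_le.1 hj).le (sq_nonneg _)

/-- Spectral subspace inside a given subspace `U`. -/
lemma spectral_sub (U : Submodule ℂ E) (T : E →ₗ[ℂ] E) (hT : T.IsSymmetric)
    (hpos : ∀ v, 0 ≤ (⟪T v, v⟫_ℂ).re) (η : ℝ) :
    ∃ H : Submodule ℂ E, H ≤ U ∧ (∀ v ∈ H, (⟪T v, v⟫_ℂ).re ≤ η * ‖v‖ ^ 2) ∧
      ∀ φ ∈ U, ∃ w ∈ H, η * ‖φ - w‖ ^ 2 ≤ (⟪T φ, φ⟫_ℂ).re := by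
  classical
  let T' : U →ₗ[ℂ] U := (U.orthogonalProjectionOnto : E →ₗ[ℂ] U) ∘ₗ T ∘ₗ U.subtype
  have hT'q : ∀ v w : U, ⟪T' v, w⟫_ℂ = ⟪T v, (w : E)⟫_ℂ := by
    intro v w
    simp only [T', LinearMap.comp_apply, Submodule.subtype_apply]
    exact Submodule.inner_orthogonalProjectionOnto_eq_of_mem_right w (T v)
  have hT'q' : ∀ v w : U, ⟪v, T' w⟫_ℂ = ⟪(v : E), T w⟫_ℂ := by
    intro v w
    rw [← inner_conj_symm, hT'q, inner_conj_symm]
  have hT's : T'.IsSymmetric := by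
    intro v w
    rw [hT'q, hT'q', hT]
  obtain ⟨H, h1, h2⟩ := spectral_top T' hT's (fun v => by rw [hT'q]; exact hpos v) η
  refine ⟨H.map U.subtype, Submodule.map_subtype_le U H, ?_, ?_⟩
  · rintro v ⟨u, hu, rfl⟩
    have := h1 u hu
    rw [hT'q] at this
    exact this
  · intro φ hφ
    obtain ⟨w, hw, hw2⟩ := h2 ⟨φ, hφ⟩
    refine ⟨w, ⟨w, hw, rfl⟩, ?_⟩
    rw [hT'q] at hw2
    exact hw2

/-- The defect form `D φ = ∑_l ‖P_{U l} φ‖²` as a quadratic form of a symmetric operator. -/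
noncomputable def Dop {ι : Type*} (s : Finset ι) (U : ι → Submodule ℂ E) : E →ₗ[ℂ] E :=
  ∑ l ∈ s, ((U l).starProjection : E →ₗ[ℂ] E)

lemma Dop_inner {ι : Type*} (s : Finset ι) (U : ι → Submodule ℂ E) (v w : E) :
    ⟪Dop s U v, w⟫_ℂ = ∑ l ∈ s, ⟪(U l).starProjection v, w⟫_ℂ := by
  simp [Dop, LinearMap.sum_apply]

lemma Dop_symm {ι : Type*} (s : Finset ι) (U : ι → Submodule ℂ E) : (Dop s U).IsSymmetric := by
  intro v w
  rw [Dop_inner, ← inner_conj_symm, Dop_inner, map_sum]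
  refine Finset.sum_congr rfl fun l _ => ?_
  rw [inner_conj_symm, Submodule.inner_starProjection_left_eq_right]

lemma proj_re_inner (U : Submodule ℂ E) (v : E) :
    (⟪U.starProjection v, v⟫_ℂ).re = ‖U.starProjection v‖ ^ 2 := by
  have := U.re_inner_starProjection_eq_normSq v
  simpa using this

lemma Dop_re {ι : Type*} (s : Finset ι) (U : ι → Submodule ℂ E) (v : E) :
    (⟪Dop s U v, v⟫_ℂ).re = ∑ l ∈ s, ‖(U l).starProjection v‖ ^ 2 := by
  rw [Dop_inner, Complex.re_sum]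
  exact Finset.sum_congr rfl fun l _ => proj_re_inner _ _

end Pool.Agent.H11R2.MTI
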