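import Pool.Agent.H11R2.MTI1

set_option autoImplicit false

open scoped InnerProductSpace

namespace Pool.Agent.H11R2.MTI

variable {E : Type*} [NormedAddCommGroup E] [InnerProductSpace ℂ E] [FiniteDimensional ℂ E]

lemma norm_add_sq_le (a b : E) : ‖a + b‖ ^ 2 ≤ 2 * ‖a‖ ^ 2 + 2 * ‖b‖ ^ 2 := by
  have h := norm_add_le a b
  have h0 := norm_nonneg (a + b)
  nlinarith [sq_nonneg (‖a‖ - ‖b‖), norm_nonneg a, norm_nonneg b]

/-- The defect form of index `k`. -/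
noncomputable def Df {n : ℕ} (V : Fin n → Fin n → Submodule ℂ E) (k : Fin n) (φ : E) : ℝ :=
  ∑ l ∈ Finset.univ.erase k, ‖(V l k).starProjection φ‖ ^ 2

variable {n : ℕ} (V : Fin n → Fin n → Submodule ℂ E)

lemma Df_nonneg (k : Fin n) (φ : E) : 0 ≤ Df V k φ := Finset.sum_nonneg fun _ _ => sq_nonneg _

lemma term_le_Df {k l : Fin n} (h : l ≠ k) (φ : E) : ‖(V l k).starProjection φ‖ ^ 2 ≤ Df V k φ := by
  unfold Df
  exact Finset.single_le_sum (f := fun l => ‖(V l k).starProjection φ‖ ^ 2)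
    (fun _ _ => sq_nonneg _) (Finset.mem_erase.2 ⟨h, Finset.mem_univ _⟩)

lemma Df_add_le (k : Fin n) (a b : E) : Df V k (a + b) ≤ 2 * Df V k a + 2 * Df V k b := by
  unfold Df
  rw [Finset.mul_sum, Finset.mul_sum, ← Finset.sum_add_distrib]
  refine Finset.sum_le_sum fun l _ => ?_
  rw [map_add]
  exact norm_add_sq_le _ _

lemma proj_norm_sq_le (U : Submodule ℂ E) (φ : E) : ‖U.starProjection φ‖ ^ 2 ≤ ‖φ‖ ^ 2 := by
  have := U.norm_starProjection_apply_le φ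
  gcongr

lemma Df_le (k : Fin n) (a : E) : Df V k a ≤ n * ‖a‖ ^ 2 := by
  unfold Df
  calc ∑ l ∈ Finset.univ.erase k, ‖(V l k).starProjection a‖ ^ 2
      ≤ ∑ l ∈ Finset.univ.erase k, ‖a‖ ^ 2 := Finset.sum_le_sum fun l _ => proj_norm_sq_le _ _
    _ ≤ ∑ l : Fin n, ‖a‖ ^ 2 := Finset.sum_le_sum_of_subset_of_nonneg (Finset.subset_univ _)
        fun _ _ _ => sq_nonneg _
    _ = n * ‖a‖ ^ 2 := by simp

variable (hV : ∀ j k, j ≠ k → V k j = (V j k)ᗮ)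
include hV

/-- Lemma B. -/
lemma exists_H {m k : Fin n} (hmk : k ≠ m) (η : ℝ) (hη : 0 < η) :
    ∃ H : Submodule ℂ E, H ≤ V k m ∧ (∀ v ∈ H, Df V k v ≤ η * ‖v‖ ^ 2) ∧
      ∀ φ : E, ∃ w ∈ H, ‖φ - w‖ ^ 2 ≤ (2 + 2 * (2 + 2 * n) / η) * Df V k φ := by
  obtain ⟨H, hHU, h1, h2⟩ := spectral_sub (V k m) (Dop (Finset.univ.erase k) (fun l => V l k))
    (Dop_symm _ _) (fun v => by rw [Dop_re]; exact Finset.sum_nonneg fun _ _ => sq_nonneg _) η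
  simp only [Dop_re] at h1 h2
  refine ⟨H, hHU, h1, fun φ => ?_⟩
  set φ1 := (V k m).starProjection φ with hφ1
  obtain ⟨w, hw, hw2⟩ := h2 φ1 ((V k m).starProjection_apply_mem φ)
  refine ⟨w, hw, ?_⟩
  set φ2 := (V m k).starProjection φ with hφ2
  have hdec : φ = φ1 + φ2 := by
    rw [hφ1, hφ2, hV k m hmk]
    exact ((V k m).starProjection_add_starProjection_orthogonal φ).symm
  have h3 : ‖φ2‖ ^ 2 ≤ Df V k φ := term_le_Df V hmk.symm φ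
  have h4 : φ1 = φ + (-φ2) := by
    rw [← sub_eq_add_neg]; exact eq_sub_of_add_eq hdec.symm
  have h5 : Df V k φ1 ≤ 2 * Df V k φ + 2 * (n * ‖φ2‖ ^ 2) := by
    rw [h4]
    refine (Df_add_le V k _ _).trans ?_
    have := Df_le V k (-φ2)
    rw [norm_neg] at this
    linarith
  have h6 : Df V k φ1 ≤ (2 + 2 * n) * Df V k φ := by
    have : (n : ℝ) * ‖φ2‖ ^ 2 ≤ n * Df V k φ := by gcongr
    linarith
  have h7 : ‖φ1 - w‖ ^ 2 ≤ (2 + 2 * n) / η * Df V k φ := by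
    rw [div_mul_eq_mul_div, le_div_iff₀ hη]
    have : η * ‖φ1 - w‖ ^ 2 ≤ Df V k φ1 := hw2
    linarith
  have h8 : φ - w = φ2 + (φ1 - w) := by
    rw [add_sub, add_comm φ2 φ1]
    exact congrArg (· - w) hdec
  rw [h8]
  refine (norm_add_sq_le _ _).trans ?_
  have : 2 * (2 + 2 * (n : ℝ)) / η = 2 * ((2 + 2 * n) / η) := by ring
  rw [this]
  linarith

/-- Lemma C. -/
lemma near_orth {k l : Fin n} (hkl : k ≠ l) {η : ℝ} (hη : 0 ≤ η) {v w : E}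
    (hv : Df V k v ≤ η * ‖v‖ ^ 2) (hw : Df V l w ≤ η * ‖w‖ ^ 2) :
    ‖⟪v, w⟫_ℂ‖ ≤ 2 * √η * (‖v‖ * ‖w‖) := by
  have h1 : ‖(V l k).starProjection v‖ ≤ √η * ‖v‖ := by
    have := (term_le_Df V hkl.symm v).trans hv
    rw [← Real.sqrt_sq (norm_nonneg v), ← Real.sqrt_mul hη]
    exact Real.le_sqrt_of_sq_le this
  have h2 : ‖(V k l).starProjection w‖ ≤ √η * ‖w‖ := by
    have := (term_le_Df V hkl w).trans hw
    rw [← Real.sqrt_sq (norm_nonneg w), ← Real.sqrt_mul hη]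
    exact Real.le_sqrt_of_sq_le this
  have hdec : v = (V l k).starProjection v + (V k l).starProjection v := by
    rw [hV l k hkl.symm]
    exact ((V l k).starProjection_add_starProjection_orthogonal v).symm
  have h3 : ⟪v, w⟫_ℂ = ⟪(V l k).starProjection v, w⟫_ℂ + ⟪v, (V k l).starProjection w⟫_ℂ := by
    rw [← (V k l).inner_starProjection_left_eq_right, ← inner_add_left, ← hdec]
  rw [h3]
  refine (norm_add_le _ _).trans ?_
  have h4 := norm_inner_le_norm (𝕜 := ℂ) ((V l k).starProjection v) w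
  have h5 := norm_inner_le_norm (𝕜 := ℂ) v ((V k l).starProjection w)
  have h6 : ‖(V l k).starProjection v‖ * ‖w‖ ≤ √η * ‖v‖ * ‖w‖ := by gcongr
  have h7 : ‖v‖ * ‖(V k l).starProjection w‖ ≤ ‖v‖ * (√η * ‖w‖) := by gcongr
  nlinarith

omit hV in
/-- Lemma D. -/
lemma sum_near_orth {ι : Type*} [DecidableEq ι] (s : Finset ι) (H : ι → Submodule ℂ E) (ε : ℝ)
    (hH : ∀ k ∈ s, ∀ l ∈ s, k ≠ l → ∀ v ∈ H k, ∀ w ∈ H l, ‖⟪v, w⟫_ℂ‖ ≤ ε * (‖v‖ * ‖w‖))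
    (hε : 0 ≤ ε) (hs : ε * s.card ≤ 1 / 2) (φ : E) :
    ‖(⨆ k ∈ s, H k).starProjection φ‖ ^ 2 ≤ 2 * ∑ k ∈ s, ‖(H k).starProjection φ‖ ^ 2 := by
  set S := ⨆ k ∈ s, H k with hS
  obtain ⟨μ, hμ⟩ := (Submodule.mem_iSup_finset_iff_exists_sum H _).1 (S.starProjection_apply_mem φ)
  set v := S.starProjection φ with hv
  -- lower bound for the norm
  have hre : ‖v‖ ^ 2 = ∑ k ∈ s, ∑ l ∈ s, (⟪(μ k : E), (μ l : E)⟫_ℂ).re := by
    have h0 : ‖v‖ ^ 2 = (⟪v, v⟫_ℂ).re := by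
      rw [inner_self_eq_norm_sq_to_K]
      norm_cast
    rw [h0, ← hμ, sum_inner, Complex.re_sum]
    refine Finset.sum_congr rfl fun k _ => ?_
    rw [inner_sum, Complex.re_sum]
  have h1 : ∑ k ∈ s, ‖(μ k : E)‖ ^ 2 ≤ 2 * ‖v‖ ^ 2 := by
    have hterm : ∀ k ∈ s, ∀ l ∈ s, (if k = l then ‖(μ k : E)‖ ^ 2 else 0) -
        ε * ((‖(μ k : E)‖ ^ 2 + ‖(μ l : E)‖ ^ 2) / 2) ≤ (⟪(μ k : E), (μ l : E)⟫_ℂ).re := by
      intro k hk l hl
      by_cases hkl : k = l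
      · subst hkl
        rw [if_pos rfl, inner_self_eq_norm_sq_to_K]
        have : (((‖(μ k : E)‖ : ℂ)) ^ 2).re = ‖(μ k : E)‖ ^ 2 := by norm_cast
        have h2 : 0 ≤ ε * ((‖(μ k : E)‖ ^ 2 + ‖(μ k : E)‖ ^ 2) / 2) := by positivity
        erw [this]
        linarith
      · rw [if_neg hkl]
        have h2 := hH k hk l hl hkl _ (μ k).2 _ (μ l).2
        have h3 := (abs_le.1 (Complex.abs_re_le_norm ⟪(μ k : E), (μ l : E)⟫_ℂ)).1
        have h4 : ε * (‖(μ k : E)‖ * ‖(μ l : E)‖) ≤ ε * ((‖(μ k : E)‖ ^ 2 + ‖(μ l : E)‖ ^ 2) / 2) := by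
          refine mul_le_mul_of_nonneg_left ?_ hε
          nlinarith [sq_nonneg (‖(μ k : E)‖ - ‖(μ l : E)‖)]
        linarith
    have h2 : ∑ k ∈ s, ∑ l ∈ s, ((if k = l then ‖(μ k : E)‖ ^ 2 else 0) -
        ε * ((‖(μ k : E)‖ ^ 2 + ‖(μ l : E)‖ ^ 2) / 2)) ≤ ‖v‖ ^ 2 := by
      rw [hre]
      exact Finset.sum_le_sum fun k hk => Finset.sum_le_sum fun l hl => hterm k hk l hl
    have h3 : ∑ k ∈ s, ∑ l ∈ s, ((if k = l then ‖(μ k : E)‖ ^ 2 else 0) -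
        ε * ((‖(μ k : E)‖ ^ 2 + ‖(μ l : E)‖ ^ 2) / 2)) =
        ∑ k ∈ s, ‖(μ k : E)‖ ^ 2 - ε * s.card * ∑ k ∈ s, ‖(μ k : E)‖ ^ 2 := by
      simp_rw [Finset.sum_sub_distrib]
      congr 1
      · refine Finset.sum_congr rfl fun k hk => ?_
        rw [Finset.sum_ite_eq, if_pos hk]
      · simp_rw [← Finset.mul_sum, ← Finset.sum_div, Finset.sum_add_distrib, Finset.sum_const,
          nsmul_eq_mul, ← Finset.mul_sum]
        ring
    rw [h3] at h2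
    have h4 : 0 ≤ ∑ k ∈ s, ‖(μ k : E)‖ ^ 2 := Finset.sum_nonneg fun _ _ => sq_nonneg _
    nlinarith
  -- upper bound
  have h2 : ‖v‖ ^ 2 ≤ ∑ k ∈ s, ‖(H k).starProjection φ‖ * ‖(μ k : E)‖ := by
    have h3 : ‖v‖ ^ 2 = (⟪φ, v⟫_ℂ).re := by
      have : ⟪φ, v⟫_ℂ = ⟪v, v⟫_ℂ := by
        have hvS : v ∈ S := S.starProjection_apply_mem φ
        have h5 : ⟪φ - v, v⟫_ℂ = 0 := S.starProjection_inner_eq_zero φ v hvS
        rw [inner_sub_left, sub_eq_zero] at h5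
        exact h5
      rw [this, inner_self_eq_norm_sq_to_K]
      norm_cast
    rw [h3]
    conv_lhs => rw [← hμ]
    rw [inner_sum, Complex.re_sum]
    refine Finset.sum_le_sum fun k _ => ?_
    have h5 : ⟪φ, (μ k : E)⟫_ℂ = ⟪(H k).starProjection φ, (μ k : E)⟫_ℂ := by
      rw [(H k).inner_starProjection_left_eq_right,
        Submodule.starProjection_eq_self_iff.2 (μ k).2]
    rw [h5]
    exact (Complex.re_le_norm _).trans (norm_inner_le_norm _ _)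
  have h3 : ∑ k ∈ s, ‖(H k).starProjection φ‖ * ‖(μ k : E)‖ ≤
      ∑ k ∈ s, (‖(H k).starProjection φ‖ ^ 2 + ‖(μ k : E)‖ ^ 2 / 4) := by
    refine Finset.sum_le_sum fun k _ => ?_
    nlinarith [sq_nonneg (‖(H k).starProjection φ‖ - ‖(μ k : E)‖ / 2)]
  rw [Finset.sum_add_distrib, ← Finset.sum_div] at h3
  linarith

end Pool.Agent.H11R2.MTI
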