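import Pool.Agent.H11R2.MTI2

set_option autoImplicit false

open scoped InnerProductSpace

namespace Pool.Agent.H11R2.MTI

variable {E : Type*} [NormedAddCommGroup E] [InnerProductSpace ℂ E] [FiniteDimensional ℂ E]

/-- The successive projections. -/
noncomputable def G (S : ℕ → Submodule ℂ E) : ℕ → (E →L[ℂ] E)
  | 0 => ContinuousLinearMap.id ℂ E
  | r + 1 => (S r).starProjection ∘L G S r

/-- The measurement operators. -/
noncomputable def K (S : ℕ → Submodule ℂ E) (r : ℕ) : E →L[ℂ] E := (S r)ᗮ.starProjection ∘L G S r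

lemma G_succ (S : ℕ → Submodule ℂ E) (r : ℕ) (φ : E) :
    G S (r + 1) φ = (S r).starProjection (G S r φ) := rfl

lemma K_apply (S : ℕ → Submodule ℂ E) (r : ℕ) (φ : E) :
    K S r φ = (S r)ᗮ.starProjection (G S r φ) := rfl

lemma step (S : ℕ → Submodule ℂ E) (r : ℕ) (φ : E) :
    ‖G S r φ‖ ^ 2 = ‖G S (r + 1) φ‖ ^ 2 + ‖K S r φ‖ ^ 2 := by
  rw [G_succ, K_apply]
  exact Submodule.norm_sq_eq_add_norm_sq_starProjection _ _

lemma total (S : ℕ → Submodule ℂ E) (φ : E) (r : ℕ) :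
    ‖φ‖ ^ 2 = ∑ j ∈ Finset.range r, ‖K S j φ‖ ^ 2 + ‖G S r φ‖ ^ 2 := by
  induction r with
  | zero => simp [G]
  | succ r ih =>
    rw [Finset.sum_range_succ, ih, step S r φ]
    ring

lemma sub_G (S : ℕ → Submodule ℂ E) (φ : E) (δ : ℝ) (j : ℕ)
    (h : ∀ i < j, ‖φ - (S i).starProjection φ‖ ≤ δ) : ∀ r ≤ j, ‖φ - G S r φ‖ ≤ r * δ := by
  intro r
  induction r with
  | zero => intro _; simp [G]
  | succ r ih =>
    intro hr
    have h1 := ih (by omega)
    have h2 := h r (by omega)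
    rw [G_succ]
    have h3 : φ - (S r).starProjection (G S r φ) =
        (φ - (S r).starProjection φ) + (S r).starProjection (φ - G S r φ) := by
      rw [map_sub]; abel
    rw [h3]
    refine (norm_add_le _ _).trans ?_
    have h4 := (S r).norm_starProjection_apply_le (φ - G S r φ)
    push_cast
    linarith

lemma defect (S : ℕ → Submodule ℂ E) (φ : E) (δ : ℝ) (hδ : 0 ≤ δ) (j : ℕ)
    (h : ∀ i < j, ‖φ - (S i).starProjection φ‖ ≤ δ) (h' : ‖(S j).starProjection φ‖ ≤ δ) :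
    ‖φ‖ ^ 2 - ‖K S j φ‖ ^ 2 ≤ (j + 1) ^ 3 * δ ^ 2 := by
  have hG := sub_G S φ δ j h
  -- the pieces `K S r φ`, `r < j`
  have hK : ∀ r < j, ‖K S r φ‖ ^ 2 ≤ ((r + 1) * δ) ^ 2 := by
    intro r hr
    have h1 : K S r φ = (φ - (S r).starProjection φ) - (S r)ᗮ.starProjection (φ - G S r φ) := by
      rw [K_apply, map_sub, ← Submodule.starProjection_orthogonal_val]
      abel
    have h2 := h r hr
    have h3 := hG r hr.le
    have h4 := (S r)ᗮ.norm_starProjection_apply_le (φ - G S r φ)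
    have h5 : ‖K S r φ‖ ≤ (r + 1) * δ := by
      rw [h1]
      refine (norm_sub_le _ _).trans ?_
      linarith
    gcongr
  have hlast : ‖G S (j + 1) φ‖ ^ 2 ≤ ((j + 1) * δ) ^ 2 := by
    have h1 : G S (j + 1) φ = (S j).starProjection φ - (S j).starProjection (φ - G S j φ) := by
      rw [G_succ, map_sub]; abel
    have h3 := hG j le_rfl
    have h4 := (S j).norm_starProjection_apply_le (φ - G S j φ)
    have h5 : ‖G S (j + 1) φ‖ ≤ (j + 1) * δ := by
      rw [h1]
      refine (norm_sub_le _ _).trans ?_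
      linarith
    gcongr
  have htot := total S φ (j + 1)
  rw [Finset.sum_range_succ] at htot
  have hsum : ∑ r ∈ Finset.range j, ‖K S r φ‖ ^ 2 ≤ j * ((j + 1) * δ) ^ 2 := by
    calc ∑ r ∈ Finset.range j, ‖K S r φ‖ ^ 2 ≤ ∑ r ∈ Finset.range j, ((j + 1) * δ) ^ 2 := by
          refine Finset.sum_le_sum fun r hr => ?_
          have hr' := Finset.mem_range.1 hr
          refine (hK r hr').trans ?_
          have : (r : ℝ) ≤ j := by exact_mod_cast hr'.le
          gcongr
      _ = j * ((j + 1) * δ) ^ 2 := by simp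
  nlinarith

/-- The constant. -/
noncomputable def Cn (n : ℕ) : ℝ := n ^ 3 * (2 + 2 * (2 + 2 * n) * (16 * n ^ 2))

lemma exists_K {n : ℕ} (hn : 2 ≤ n) (V : Fin n → Fin n → Submodule ℂ E)
    (hV : ∀ j k, j ≠ k → V k j = (V j k)ᗮ) :
    ∃ M : Fin n → (E →L[ℂ] E), (∀ φ, ∑ j, ‖M j φ‖ ^ 2 ≤ ‖φ‖ ^ 2) ∧
      ∀ j φ, ‖φ‖ ^ 2 - ‖M j φ‖ ^ 2 ≤ Cn n * Df V j φ := by
  classical
  have hn0 : (0 : ℝ) < n := by exact_mod_cast (by omega : 0 < n)
  set η : ℝ := 1 / (16 * n ^ 2) with hη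
  have hη0 : 0 < η := by positivity
  have hsη : 2 * √η * n = 1 / 2 := by
    have : η = (1 / (4 * n)) ^ 2 := by rw [hη]; ring
    rw [this, Real.sqrt_sq (by positivity)]
    field_simp
    norm_num
  have hex : ∀ m k : Fin n, ∃ H : Submodule ℂ E, k ≠ m → (H ≤ V k m ∧
      (∀ v ∈ H, Df V k v ≤ η * ‖v‖ ^ 2) ∧
      ∀ φ : E, ∃ w ∈ H, ‖φ - w‖ ^ 2 ≤ (2 + 2 * (2 + 2 * n) / η) * Df V k φ) := by
    intro m k
    by_cases h : k ≠ m
    · obtain ⟨H, hH⟩ := exists_H V hV h η hη0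
      exact ⟨H, fun _ => hH⟩
    · exact ⟨⊥, fun h' => absurd h' h⟩
  choose H hH using hex
  set C1 : ℝ := 2 + 2 * (2 + 2 * n) * (16 * n ^ 2) with hC1
  have hC1' : 2 + 2 * (2 + 2 * (n : ℝ)) / η = C1 := by rw [hη, hC1]; field_simp
  have hC12 : 2 ≤ C1 := by rw [hC1]; have : 0 ≤ 2 * (2 + 2 * (n : ℝ)) * (16 * n ^ 2) := by positivity
                           linarith
  let Sf : Fin n → Submodule ℂ E := fun m => ⨆ k ∈ Finset.univ.erase m, H m k
  let S : ℕ → Submodule ℂ E := fun r => if h : r < n then Sf ⟨r, h⟩ else ⊥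
  -- composite tests
  have hS1 : ∀ (m : Fin n) (φ : E), ‖(Sf m).starProjection φ‖ ^ 2 ≤ C1 * Df V m φ := by
    intro m φ
    have h1 := sum_near_orth (Finset.univ.erase m) (fun k => H m k) (2 * √η) (by
      intro k hk l hl hkl v hv w hw
      have hk' := (Finset.mem_erase.1 hk).1
      have hl' := (Finset.mem_erase.1 hl).1
      exact near_orth V hV hkl hη0.le ((hH m k hk').2.1 v hv) ((hH m l hl').2.1 w hw))
      (by positivity) (by
        have : ((Finset.univ.erase m).card : ℝ) ≤ n := by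
          have := Finset.card_le_univ (Finset.univ.erase m)
          rw [Fintype.card_fin] at this
          exact_mod_cast this
        rw [← hsη]
        gcongr) φ
    refine h1.trans ?_
    have h2 : ∑ k ∈ Finset.univ.erase m, ‖(H m k).starProjection φ‖ ^ 2 ≤ Df V m φ := by
      unfold Df
      refine Finset.sum_le_sum fun k hk => ?_
      have hk' := (Finset.mem_erase.1 hk).1
      have hle := (hH m k hk').1
      have h3 : (H m k).starProjection φ = (H m k).starProjection ((V k m).starProjection φ) := by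
        have := Submodule.starProjection_comp_starProjection_of_le hle
        exact (congrArg (fun f : E →L[ℂ] E => f φ) this).symm
      rw [h3]
      exact proj_norm_sq_le _ _
    have h4 := Df_nonneg V m φ
    nlinarith
  have hS2 : ∀ (i j : Fin n), i ≠ j → ∀ φ : E,
      ‖φ - (Sf i).starProjection φ‖ ^ 2 ≤ C1 * Df V j φ := by
    intro i j hij φ
    obtain ⟨w, hw, hw2⟩ := (hH i j hij.symm).2.2 φ
    rw [hC1'] at hw2
    refine le_trans ?_ hw2
    have hwS : w ∈ Sf i := by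
      have hle : H i j ≤ Sf i := le_iSup₂_of_le j (Finset.mem_erase.2 ⟨hij.symm, Finset.mem_univ _⟩)
        le_rfl
      exact hle hw
    have h1 : ‖φ - (Sf i).starProjection φ‖ ≤ ‖φ - w‖ := by
      rw [Submodule.starProjection_minimal]
      exact ciInf_le ⟨0, by rintro _ ⟨x, rfl⟩; exact norm_nonneg _⟩ (⟨w, hwS⟩ : Sf i)
    gcongr
  refine ⟨fun j => K S j, ?_, ?_⟩
  · intro φ
    have h1 := total S φ n
    rw [Finset.sum_range] at h1
    have := sq_nonneg ‖G S n φ‖
    linarith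
  · intro j φ
    have hD0 := Df_nonneg V j φ
    set δ : ℝ := √(C1 * Df V j φ) with hδ
    have hδ0 : 0 ≤ δ := Real.sqrt_nonneg _
    have hδ2 : δ ^ 2 = C1 * Df V j φ := Real.sq_sqrt (by positivity)
    have hSj : ∀ i : Fin n, S i = Sf i := fun i => by simp [S]
    have h1 := defect S φ δ hδ0 j (fun i hi => by
      have hi' : i < n := lt_trans hi j.2
      have h2 := hS2 ⟨i, hi'⟩ j (by
        intro h
        rw [← h] at hi
        exact lt_irrefl _ hi) φ
      have h3 : S i = Sf ⟨i, hi'⟩ := hSj ⟨i, hi'⟩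
      rw [h3]
      exact Real.le_sqrt_of_sq_le h2) (by
      rw [hSj]
      exact Real.le_sqrt_of_sq_le (hS1 j φ))
    refine h1.trans ?_
    rw [hδ2, Cn, ← hC1, mul_assoc]
    have hj : ((j : ℕ) : ℝ) + 1 ≤ n := by exact_mod_cast j.2
    have h5 : 0 ≤ C1 * Df V j φ := by positivity
    have h6 : (((j : ℕ) : ℝ) + 1) ^ 3 ≤ (n : ℝ) ^ 3 := by gcongr
    exact mul_le_mul_of_nonneg_right h6 h5

end Pool.Agent.H11R2.MTI
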