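import Pool.Agent.H11R2.MTI3

set_option autoImplicit false

open scoped InnerProductSpace ComplexOrder MatrixOrder Matrix
open Matrix

namespace Pool.Agent.H11R2.MTI

variable {d : ℕ}

/-- complex `d × d` matrices -/
abbrev Mat (d : ℕ) := Matrix (Fin d) (Fin d) ℂ
/-- the Hilbert space -/
abbrev EE (d : ℕ) := EuclideanSpace ℂ (Fin d)

/-- quadratic form -/
noncomputable def qf (A : Mat d) (x : EE d) : ℝ := (star (x.ofLp) ⬝ᵥ (A *ᵥ x.ofLp)).re

lemma qf_sub (A B : Mat d) (x : EE d) : qf (A - B) x = qf A x - qf B x := by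
  simp only [qf, Matrix.sub_mulVec, dotProduct_sub, Complex.sub_re]

lemma qf_nonneg {A : Mat d} (hA : A.PosSemidef) (x : EE d) : 0 ≤ qf A x := by
  exact (Complex.le_def.1 (hA.dotProduct_mulVec_nonneg x.ofLp)).1

lemma inner_eq (x y : EE d) : ⟪x, y⟫_ℂ = star x.ofLp ⬝ᵥ y.ofLp := by
  rw [EuclideanSpace.inner_eq_star_dotProduct, dotProduct_comm]

/-- vectors of a positive semidefinite matrix -/
lemma vecs {A : Mat d} (hA : A.PosSemidef) :
    ∃ φ : Fin d → EE d, (∀ x : EE d, qf A x = ∑ i, ‖⟪φ i, x⟫_ℂ‖ ^ 2) ∧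
      A.trace.re = ∑ i, ‖φ i‖ ^ 2 := by
  obtain ⟨B, rfl⟩ := CStarAlgebra.nonneg_iff_eq_star_mul_self.1 hA.nonneg
  refine ⟨fun i => WithLp.toLp 2 (fun j => star (B i j)), ?_, ?_⟩
  · intro x
    have h1 : ∀ i, ⟪(WithLp.toLp 2 (fun j => star (B i j)) : EE d), x⟫_ℂ = (B *ᵥ x.ofLp) i := by
      intro i
      rw [inner_eq, Matrix.mulVec]
      congr 1
      funext j
      simp
    simp_rw [h1]
    rw [qf, Matrix.star_eq_conjTranspose, ← Matrix.mulVec_mulVec, Matrix.dotProduct_mulVec,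
      ← Matrix.star_mulVec]
    rw [dotProduct, Complex.re_sum]
    refine Finset.sum_congr rfl fun i _ => ?_
    rw [Pi.star_apply, RCLike.star_def, re_conj_mul]
  · rw [Matrix.star_eq_conjTranspose, Matrix.trace, Complex.re_sum]
    simp only [Matrix.diag, Matrix.mul_apply, Matrix.conjTranspose_apply, Complex.re_sum]
    rw [Finset.sum_comm]
    refine Finset.sum_congr rfl fun i _ => ?_
    rw [EuclideanSpace.norm_sq_eq]
    refine Finset.sum_congr rfl fun j _ => ?_
    rw [RCLike.star_def, re_conj_mul]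
    simp

/-- Parseval for sums of squares of functionals. -/
lemma sum_basis (b : OrthonormalBasis (Fin d) ℂ (EE d)) (φ : Fin d → EE d) :
    ∑ l, ∑ i, ‖⟪φ i, b l⟫_ℂ‖ ^ 2 = ∑ i, ‖φ i‖ ^ 2 := by
  rw [Finset.sum_comm]
  refine Finset.sum_congr rfl fun i _ => ?_
  exact b.sum_sq_norm_inner_left (φ i)

lemma trace_re_eq (b : OrthonormalBasis (Fin d) ℂ (EE d)) {A : Mat d} (hA : A.PosSemidef) :
    A.trace.re = ∑ l, qf A (b l) := by
  obtain ⟨φ, h1, h2⟩ := vecs hA
  simp_rw [h1, h2, sum_basis b φ]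

/-- Comparison under a bounded operator. -/
lemma compare (M : EE d →L[ℂ] EE d) (φ ψ : Fin d → EE d)
    (h : ∀ x, ∑ i, ‖⟪φ i, x⟫_ℂ‖ ^ 2 ≤ ∑ i, ‖⟪ψ i, x⟫_ℂ‖ ^ 2) :
    ∑ i, ‖M (φ i)‖ ^ 2 ≤ ∑ i, ‖M (ψ i)‖ ^ 2 := by
  have key : ∀ χ : Fin d → EE d, ∑ i, ‖M (χ i)‖ ^ 2 =
      ∑ l, ∑ i, ‖⟪χ i, (ContinuousLinearMap.adjoint M) (EuclideanSpace.basisFun (Fin d) ℂ l)⟫_ℂ‖ ^ 2 := by
    intro χ
    rw [Finset.sum_comm]
    refine Finset.sum_congr rfl fun i _ => ?_
    rw [← (EuclideanSpace.basisFun (Fin d) ℂ).sum_sq_norm_inner_left (M (χ i))]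
    refine Finset.sum_congr rfl fun l _ => ?_
    rw [ContinuousLinearMap.adjoint_inner_right]
  rw [key, key]
  exact Finset.sum_le_sum fun l _ => h _

/-- The square root is operator monotone (squares version). -/
lemma le_of_sq_le {X A : Mat d} (hX : X.PosSemidef) (hA : A.PosSemidef)
    (h : (X * X - A * A).PosSemidef) : (X - A).PosSemidef := by
  have hH : (X - A).IsHermitian := hX.1.sub hA.1
  rw [hH.posSemidef_iff_eigenvalues_nonneg]
  intro i
  by_contra hlt
  rw [Pi.zero_apply, not_le] at hlt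
  set lam := hH.eigenvalues i with hlam
  set v := hH.eigenvectorBasis i with hv
  have hev : (X - A) *ᵥ v.ofLp = lam • v.ofLp := hH.mulVec_eigenvectorBasis i
  have hdec : X * X - A * A = X * (X - A) + (X - A) * A := by noncomm_ring
  have hev' : star v.ofLp ᵥ* (X - A) = lam • star v.ofLp := by
    have h1 : star ((X - A) *ᵥ v.ofLp) = star v.ofLp ᵥ* (X - A)ᴴ := Matrix.star_mulVec _ _
    rw [hH.eq, hev] at h1
    rw [← h1]
    simp
  have h1 : 0 ≤ qf (X * X - A * A) v := qf_nonneg h v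
  have h2 : qf (X * X - A * A) v = lam * (qf X v + qf A v) := by
    unfold qf
    rw [hdec, Matrix.add_mulVec, dotProduct_add, ← Matrix.mulVec_mulVec, ← Matrix.mulVec_mulVec,
      hev, Matrix.dotProduct_mulVec _ (X - A), hev', Matrix.mulVec_smul, dotProduct_smul,
      smul_dotProduct, Complex.add_re, Complex.smul_re, Complex.smul_re, smul_eq_mul, smul_eq_mul]
    ring
  have h3 := qf_nonneg hX v
  have h4 := qf_nonneg hA v
  have h5 : qf X v - qf A v = lam := by
    rw [← qf_sub]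
    unfold qf
    rw [hev, dotProduct_smul, ← inner_eq, inner_self_eq_norm_sq_to_K,
      hH.eigenvectorBasis.norm_eq_one]
    simp
  rw [h2] at h1
  have h6 : qf X v + qf A v ≤ 0 := by
    by_contra h7
    rw [not_le] at h7
    nlinarith
  linarith

/-- The trace norm. -/
noncomputable def tn (X : Mat d) : ℝ := (CFC.sqrt (Xᴴ * X)).trace.re

lemma trace_cfc {H : Mat d} (hH : H.IsHermitian) (f : ℝ → ℝ) :
    (cfc f H).trace = ∑ i, ((f (hH.eigenvalues i) : ℝ) : ℂ) := by
  rw [hH.cfc_eq f, IsHermitian.cfc, Unitary.conjStarAlgAut_apply, Matrix.trace_mul_cycle]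
  simp [Matrix.trace, Function.comp_def]

lemma tn_eq {H : Mat d} (hH : H.IsHermitian) : tn H = ∑ i, |hH.eigenvalues i| := by
  have hsa : IsSelfAdjoint H := hH
  have h0 : (0 : Mat d) ≤ cfc (fun x : ℝ => |x|) H := cfc_nonneg fun x _ => abs_nonneg x
  have h1 : CFC.sqrt (Hᴴ * H) = cfc (fun x : ℝ => |x|) H := by
    refine CFC.sqrt_unique ?_ h0
    rw [← cfc_mul (fun x : ℝ => |x|) (fun x : ℝ => |x|) H]
    simp only [abs_mul_abs_self]
    rw [cfc_mul (fun x : ℝ => x) (fun x : ℝ => x) H, cfc_id' ℝ H, hH.eq]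
  rw [tn, h1, trace_cfc hH, Complex.re_sum]
  simp

/-- Projection onto the span of a part of an orthonormal basis. -/
lemma proj_span (b : OrthonormalBasis (Fin d) ℂ (EE d)) (s : Finset (Fin d)) (φ : EE d) :
    ‖(Submodule.span ℂ (b '' (s : Set (Fin d)))).starProjection φ‖ ^ 2 =
      ∑ l ∈ s, ‖⟪b l, φ⟫_ℂ‖ ^ 2 := by
  classical
  have h1 : (Submodule.span ℂ (b '' (s : Set (Fin d)))).starProjection φ =
      ∑ l ∈ s, ⟪b l, φ⟫_ℂ • b l := by
    refine Submodule.eq_starProjection_of_mem_of_inner_eq_zero ?_ ?_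
    · exact Submodule.sum_mem _ fun i hi => Submodule.smul_mem _ _
        (Submodule.subset_span ⟨i, hi, rfl⟩)
    · intro w hw
      refine Submodule.span_induction (p := fun x _ =>
        ⟪φ - ∑ l ∈ s, ⟪b l, φ⟫_ℂ • b l, x⟫_ℂ = 0) ?_ ?_ ?_ ?_ hw
      · rintro x ⟨j, hj, rfl⟩
        rw [inner_sub_left, sum_inner]
        simp_rw [inner_smul_left, b.inner_eq_ite]
        rw [Finset.sum_eq_single j]
        · simp
        · intro i _ hij
          rw [if_neg hij, mul_zero]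
        · intro h
          exact absurd hj h
      · simp
      · intro x y _ _ hx hy
        rw [inner_add_right, hx, hy, add_zero]
      · intro a x _ hx
        rw [inner_smul_right, hx, mul_zero]
  have h2 : ∀ j, ⟪b j, ∑ l ∈ s, ⟪b l, φ⟫_ℂ • b l⟫_ℂ = if j ∈ s then ⟪b j, φ⟫_ℂ else 0 := by
    intro j
    rw [inner_sum]
    simp_rw [inner_smul_right, b.inner_eq_ite]
    by_cases hj : j ∈ s
    · rw [if_pos hj, Finset.sum_eq_single j]
      · simp
      · intro i _ hij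
        rw [if_neg hij.symm, mul_zero]
      · intro h
        exact absurd hj h
    · rw [if_neg hj]
      refine Finset.sum_eq_zero fun i hi => ?_
      have hij : j ≠ i := fun h => hj (h ▸ hi)
      rw [if_neg hij, mul_zero]
  rw [h1, ← b.sum_sq_norm_inner_right]
  simp_rw [h2]
  rw [← Finset.sum_filter_add_sum_filter_not Finset.univ (· ∈ s)]
  have h3 : ∑ x ∈ Finset.univ.filter (· ∉ s), ‖(if x ∈ s then ⟪b x, φ⟫_ℂ else 0)‖ ^ 2 = 0 :=
    Finset.sum_eq_zero fun x hx => by rw [if_neg (Finset.mem_filter.1 hx).2]; simp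
  rw [h3, add_zero]
  have h4 : Finset.univ.filter (· ∈ s) = s := by ext; simp
  rw [h4]
  exact Finset.sum_congr rfl fun x hx => by rw [if_pos hx]

/-- The optimal pairwise test. -/
lemma pair_test {A B : Mat d} (hA : A.PosSemidef) (hB : B.PosSemidef) (φ χ : Fin d → EE d)
    (hφ : ∀ x : EE d, qf A x = ∑ i, ‖⟪φ i, x⟫_ℂ‖ ^ 2) (hφ2 : A.trace.re = ∑ i, ‖φ i‖ ^ 2)
    (hχ : ∀ x : EE d, qf B x = ∑ i, ‖⟪χ i, x⟫_ℂ‖ ^ 2) :
    ∃ V : Submodule ℂ (EE d), ∑ i, ‖Vᗮ.starProjection (φ i)‖ ^ 2 +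
      ∑ i, ‖V.starProjection (χ i)‖ ^ 2 = 1 / 2 * ((A + B).trace.re - tn (A - B)) := by
  classical
  have hH : (A - B).IsHermitian := hA.1.sub hB.1
  set b := hH.eigenvectorBasis with hb
  set s := Finset.univ.filter (fun i => 0 < hH.eigenvalues i) with hs
  refine ⟨Submodule.span ℂ (b '' (s : Set (Fin d))), ?_⟩
  have hpr : ∀ ψ : Fin d → EE d, ∀ C : Mat d, (∀ x : EE d, qf C x = ∑ i, ‖⟪ψ i, x⟫_ℂ‖ ^ 2) →
      ∑ i, ‖(Submodule.span ℂ (b '' (s : Set (Fin d)))).starProjection (ψ i)‖ ^ 2 =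
        ∑ l ∈ s, qf C (b l) := by
    intro ψ C hC
    simp_rw [proj_span b s, hC]
    rw [Finset.sum_comm]
    refine Finset.sum_congr rfl fun l _ => Finset.sum_congr rfl fun i _ => ?_
    rw [norm_inner_symm]
  have hperp : ∀ x : EE d, ‖(Submodule.span ℂ (b '' (s : Set (Fin d))))ᗮ.starProjection x‖ ^ 2 =
      ‖x‖ ^ 2 - ‖(Submodule.span ℂ (b '' (s : Set (Fin d)))).starProjection x‖ ^ 2 := by
    intro x
    have := Submodule.norm_sq_eq_add_norm_sq_starProjection x
      (Submodule.span ℂ (b '' (s : Set (Fin d))))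
    linarith
  simp_rw [hperp, Finset.sum_sub_distrib]
  rw [hpr φ A hφ, hpr χ B hχ, ← hφ2, trace_re_eq b hA, Matrix.trace_add, Complex.add_re,
    trace_re_eq b hA, trace_re_eq b hB, tn_eq hH]
  have hlam : ∀ l, qf A (b l) - qf B (b l) = hH.eigenvalues l := by
    intro l
    rw [← qf_sub]
    unfold qf
    rw [hH.mulVec_eigenvectorBasis l, dotProduct_smul, ← inner_eq, inner_self_eq_norm_sq_to_K,
      hH.eigenvectorBasis.norm_eq_one]
    simp
  have h5 : ∑ l ∈ s, qf A (b l) - ∑ l ∈ s, qf B (b l) = ∑ l ∈ s, hH.eigenvalues l := by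
    rw [← Finset.sum_sub_distrib]
    exact Finset.sum_congr rfl fun l _ => hlam l
  have h6 : ∑ l, qf A (b l) - ∑ l, qf B (b l) = ∑ l, hH.eigenvalues l := by
    rw [← Finset.sum_sub_distrib]
    exact Finset.sum_congr rfl fun l _ => hlam l
  have h7 : ∑ l, |hH.eigenvalues l| = 2 * ∑ l ∈ s, hH.eigenvalues l - ∑ l, hH.eigenvalues l := by
    rw [hs, Finset.sum_filter, Finset.mul_sum, ← Finset.sum_sub_distrib]
    refine Finset.sum_congr rfl fun l _ => ?_
    by_cases hl : 0 < hH.eigenvalues l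
    · rw [if_pos hl, abs_of_pos hl]; ring
    · rw [if_neg hl, abs_of_nonpos (not_lt.1 hl)]; ring
  linarith

/-- Main inequality with the explicit constant. -/
theorem main {n : ℕ} (hn : 2 ≤ n) (A : Fin n → Mat d) (hA : ∀ j, (A j).PosSemidef) :
    Cn n / 2 * ∑ j, ∑ k ∈ Finset.univ.filter (fun k => j < k),
      (tn (A j - A k) - (A j + A k).trace.re) ≤
      (CFC.sqrt (∑ j, A j ^ 2)).trace.re - ∑ j, (A j).trace.re := by
  classical
  choose φ hφ hφ2 using fun j => vecs (hA j)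
  have hex : ∀ j k : Fin n, ∃ V : Submodule ℂ (EE d), ∑ i, ‖Vᗮ.starProjection (φ j i)‖ ^ 2 +
      ∑ i, ‖V.starProjection (φ k i)‖ ^ 2 =
        1 / 2 * ((A j + A k).trace.re - tn (A j - A k)) := fun j k =>
    pair_test (hA j) (hA k) (φ j) (φ k) (hφ j) (hφ2 j) (hφ k)
  choose W hW using hex
  let V : Fin n → Fin n → Submodule ℂ (EE d) := fun j k => if j < k then W j k else (W k j)ᗮ
  have hV : ∀ j k, j ≠ k → V k j = (V j k)ᗮ := by
    intro j k hjk
    rcases lt_or_gt_of_ne hjk with h | h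
    · simp only [V, if_pos h, if_neg (lt_asymm h)]
    · simp only [V, if_pos h, if_neg (lt_asymm h)]
      rw [Submodule.orthogonal_orthogonal]
  obtain ⟨M, hM1, hM2⟩ := exists_K hn V hV
  set X := CFC.sqrt (∑ j, A j ^ 2) with hX
  have hS : (0 : Mat d) ≤ ∑ j, A j ^ 2 := by
    refine Finset.sum_nonneg fun j _ => ?_
    have h := (Matrix.posSemidef_conjTranspose_mul_self (A j)).nonneg
    rwa [(hA j).1.eq, ← pow_two] at h
  have hXpos : X.PosSemidef := (CFC.sqrt_nonneg _).posSemidef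
  have hXX : X * X = ∑ j, A j ^ 2 := CFC.sqrt_mul_sqrt_self _ hS
  obtain ⟨ψ, hψ, hψ2⟩ := vecs hXpos
  have hXA : ∀ j, (X - A j).PosSemidef := by
    intro j
    refine le_of_sq_le hXpos (hA j) ?_
    rw [hXX, ← pow_two, ← Finset.add_sum_erase _ _ (Finset.mem_univ j), add_sub_cancel_left]
    refine Matrix.nonneg_iff_posSemidef.1 (Finset.sum_nonneg fun k _ => ?_)
    have h := (Matrix.posSemidef_conjTranspose_mul_self (A k)).nonneg
    rwa [(hA k).1.eq, ← pow_two] at h
  -- lower bound of the trace of `X`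
  have h1 : ∑ j, ∑ i, ‖M j (φ j i)‖ ^ 2 ≤ X.trace.re := by
    rw [hψ2]
    calc ∑ j, ∑ i, ‖M j (φ j i)‖ ^ 2 ≤ ∑ j, ∑ i, ‖M j (ψ i)‖ ^ 2 := by
          refine Finset.sum_le_sum fun j _ => compare (M j) (φ j) ψ fun x => ?_
          rw [← hφ, ← hψ]
          have := qf_nonneg (hXA j) x
          rw [qf_sub] at this
          linarith
      _ = ∑ i, ∑ j, ‖M j (ψ i)‖ ^ 2 := Finset.sum_comm
      _ ≤ ∑ i, ‖ψ i‖ ^ 2 := Finset.sum_le_sum fun i _ => hM1 _
  -- the defects
  have h2 : ∑ j, (A j).trace.re - ∑ j, ∑ i, ‖M j (φ j i)‖ ^ 2 ≤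
      Cn n * ∑ j, ∑ i, Df V j (φ j i) := by
    rw [← Finset.sum_sub_distrib, Finset.mul_sum]
    refine Finset.sum_le_sum fun j _ => ?_
    rw [hφ2, ← Finset.sum_sub_distrib, Finset.mul_sum]
    exact Finset.sum_le_sum fun i _ => hM2 j _
  have h3 : ∑ j, ∑ i, Df V j (φ j i) = ∑ j, ∑ k ∈ Finset.univ.filter (fun k => j < k),
      1 / 2 * ((A j + A k).trace.re - tn (A j - A k)) := by
    have e1 : ∀ j, ∑ i, Df V j (φ j i) =
        ∑ k ∈ Finset.univ.filter (fun k => j < k), ∑ i, ‖(V k j).starProjection (φ j i)‖ ^ 2 +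
        ∑ k ∈ Finset.univ.filter (fun k => k < j), ∑ i, ‖(V k j).starProjection (φ j i)‖ ^ 2 := by
      intro j
      unfold Df
      rw [Finset.sum_comm, ← Finset.sum_union]
      · refine Finset.sum_congr ?_ fun _ _ => rfl
        ext k
        simp only [Finset.mem_erase, Finset.mem_univ, and_true, Finset.mem_union,
          Finset.mem_filter, true_and]
        constructor
        · intro h
          rcases lt_or_gt_of_ne h with h | h
          · exact Or.inr h
          · exact Or.inl h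
        · rintro (h | h)
          · exact h.ne'
          · exact h.ne
      · rw [Finset.disjoint_left]
        intro k h1 h2
        exact lt_asymm (Finset.mem_filter.1 h1).2 (Finset.mem_filter.1 h2).2
    simp_rw [e1]
    rw [Finset.sum_add_distrib]
    have e2 : ∑ j, ∑ k ∈ Finset.univ.filter (fun k => k < j),
        ∑ i, ‖(V k j).starProjection (φ j i)‖ ^ 2 =
        ∑ j, ∑ k ∈ Finset.univ.filter (fun k => j < k),
        ∑ i, ‖(V j k).starProjection (φ k i)‖ ^ 2 := by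
      simp_rw [Finset.sum_filter]
      rw [Finset.sum_comm]
    rw [e2, ← Finset.sum_add_distrib]
    refine Finset.sum_congr rfl fun j _ => ?_
    rw [← Finset.sum_add_distrib]
    refine Finset.sum_congr rfl fun k hk => ?_
    have hjk := (Finset.mem_filter.1 hk).2
    rw [← hW j k]
    simp only [V, if_pos hjk, if_neg (lt_asymm hjk)]
  rw [h3] at h2
  have h4 : Cn n * ∑ j, ∑ k ∈ Finset.univ.filter (fun k => j < k),
      1 / 2 * ((A j + A k).trace.re - tn (A j - A k)) =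
      - (Cn n / 2 * ∑ j, ∑ k ∈ Finset.univ.filter (fun k => j < k),
      (tn (A j - A k) - (A j + A k).trace.re)) := by
    simp_rw [← Finset.mul_sum]
    have : ∑ j, ∑ k ∈ Finset.univ.filter (fun k => j < k),
        ((A j + A k).trace.re - tn (A j - A k)) = - ∑ j, ∑ k ∈ Finset.univ.filter (fun k => j < k),
        (tn (A j - A k) - (A j + A k).trace.re) := by
      simp_rw [← Finset.sum_neg_distrib, neg_sub]
    rw [this]
    ring
  linarith

end Pool.Agent.H11R2.MTI
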